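import Pool.Agent.Helper64.Perc.FinA

/-!
Percolation of the stable multi-matching of a Poisson process for heavy-tailed degree laws, in
every dimension.
-/

open MeasureTheory ProbabilityTheory Filter
open Pool.Agent.Helper64.Perc

/-- Let `d ≥ 1` and let `μ` be a degree law on the positive integers with tail
`F m = μ [m, ∞)`. If `F (2 m) ≥ c F m` for all `m ≥ 1` and some `c > 0`, or if
`F m ≥ 8 (4 d + 1)^d log log m / m` for all large `m`, then the stable multi-matching of a
Poisson process of intensity 1 in `ℝ^d` with independent numbers of stubs of law `μ` almost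
surely has an infinite component. -/
theorem Pool.Agent.Results.MP_5d439e_pr.HeavyTails.result :
    ∀ (d : ℕ), 1 ≤ d → ∀ (μ : Measure ℕ), IsProbabilityMeasure μ → μ {0} = 0 →
      ((∃ c : ℝ, 0 < c ∧ ∀ m : ℕ, 1 ≤ m →
          c * (μ (Set.Ici m)).toReal ≤ (μ (Set.Ici (2 * m))).toReal) ∨
        (∀ᶠ m : ℕ in atTop,
          8 * (4 * d + 1) ^ d * Real.log (Real.log m) / m ≤ (μ (Set.Ici m)).toReal)) →
      ∀ (Ω : Type) [MeasurableSpace Ω] (Pr : Measure Ω), IsProbabilityMeasure Pr →
      ∀ (P : Ω → Set (Eu d)) (D : Ω → Eu d → ℕ) (G : Ω → SimpleGraph (Eu d)),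
        MarkedPoisson Pr μ P D →
        (∀ᵐ ω ∂Pr, IsStableMultiMatching (P ω) (D ω) (G ω)) →
        ∀ᵐ ω ∂Pr, ∃ x ∈ P ω, {y | (G ω).Reachable x y}.Infinite := by
  intro d hd μ hμ h0 hF Ω _ Pr hPr P D G hP hG
  rcases hF with ⟨c, hc, hdb⟩ | hF
  · exact percolates_of_doubling hd h0 hc hdb hP hG
  · exact percolates_of_loglog hd hF hP hG
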