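import Pool.Agent.Helper64.Perc.FinB

/-!
Percolation of the stable multi-matching of a Poisson process in dimension at least two from
one heavy level of the degree law.
-/

open MeasureTheory ProbabilityTheory Filter
open Pool.Agent.Helper64.Perc

/-- For all `d ≥ 2` and `β < 2` there is `k₀` such that for every degree law `μ` on the positive
integers with `μ [k, ∞) ≥ exp (-(log k)^β)` for one `k ≥ k₀`, and for every law `μ'` that
stochastically dominates `μ`, the stable multi-matching of a Poisson process of intensity 1 in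
`ℝ^d` with independent numbers of stubs of law `μ'` almost surely has an infinite component. -/
theorem Pool.Agent.Results.MP_5d439e_pr.OneHeavyLevel.result :
    ∀ (d : ℕ), 2 ≤ d → ∀ (β : ℝ), β < 2 → ∃ k₀ : ℕ,
      ∀ (μ μ' : Measure ℕ), IsProbabilityMeasure μ → IsProbabilityMeasure μ' →
      μ {0} = 0 → μ' {0} = 0 → (∀ m : ℕ, μ (Set.Ici m) ≤ μ' (Set.Ici m)) →
      (∃ k : ℕ, k₀ ≤ k ∧ Real.exp (-(Real.log k) ^ β) ≤ (μ (Set.Ici k)).toReal) →
      ∀ (Ω : Type) [MeasurableSpace Ω] (Pr : Measure Ω), IsProbabilityMeasure Pr →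
      ∀ (P : Ω → Set (Eu d)) (D : Ω → Eu d → ℕ) (G : Ω → SimpleGraph (Eu d)),
        MarkedPoisson Pr μ' P D →
        (∀ᵐ ω ∂Pr, IsStableMultiMatching (P ω) (D ω) (G ω)) →
        ∀ᵐ ω ∂Pr, ∃ x ∈ P ω, {y | (G ω).Reachable x y}.Infinite := by
  intro d hd β hβ
  obtain ⟨k₀, hk₀⟩ := percolates_of_level hd hβ
  refine ⟨k₀, ?_⟩
  rintro μ μ' hμ hμ' - - hdom ⟨k, hk, hF⟩ Ω _ Pr hPr P D G hP hG
  refine hk₀ μ' k hk (hF.trans ?_) Pr P D G hP hG
  exact ENNReal.toReal_mono (measure_ne_top μ' _) (hdom k)
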